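import Mathlib
import Pool.Agent.Helper585.Acute.Final4

/-!
The discontinuities of the limiting distribution functions of angles in planar point sets: F is
discontinuous at pi/2, 3 pi/5 and 2 pi/3, and G is discontinuous at pi/4, pi/3 and pi/2.

Method: F is left continuous and G right continuous (blow-up). To the left of pi/2, 3 pi/5, 2 pi/3
four, five or six points always have a large angle, so the 3-graph of triangles without a large angle
has no complete subgraph on 4, 5, 6 vertices and its density is bounded; to the right of these points
cluster constructions have fewer large angles. Similarly, to the right of pi/4 the 3-graph of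
triangles without a small angle contains no three triples on four vertices and no five cyclic
triples, to the left clusters at the vertices of a square have fewer small angles.
-/

set_option autoImplicit false

namespace Pool.Agent.Results.MP_0af329_co.DiscSets

open Filter Topology Pool.Agent.Helper585.Acute

/-- the points of `(0, pi)` at which a function is discontinuous -/
def disc (f : ℝ → ℝ) : Set ℝ := {α | 0 < α ∧ α < Real.pi ∧ ¬ ContinuousAt f α}

theorem result :
    (∀ α : ℝ, Tendsto (ratio fun a => α < a) atTop (𝓝 (F α)) ∧
      Tendsto (ratio fun a => a < α) atTop (𝓝 (G α))) ∧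
    {Real.pi / 2, 3 * Real.pi / 5, 2 * Real.pi / 3} ⊆ disc F ∧
    {Real.pi / 4, Real.pi / 3, Real.pi / 2} ⊆ disc G := by
  have hpi := Real.pi_pos
  refine ⟨fun α => ⟨F_tendsto α, G_tendsto α⟩, ?_, ?_⟩
  · intro x hx
    simp only [Set.mem_insert_iff, Set.mem_singleton_iff] at hx
    rcases hx with rfl | rfl | rfl
    · exact ⟨by linarith, by linarith, F_not⟩
    · exact ⟨by linarith, by linarith, J.F_not5⟩
    · exact ⟨by linarith, by linarith, J.F_not6⟩
  · intro x hx
    simp only [Set.mem_insert_iff, Set.mem_singleton_iff] at hx
    rcases hx with rfl | rfl | rfl
    · exact ⟨by linarith, by linarith, J.G_not4⟩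
    · exact ⟨by linarith, by linarith, G_not_third⟩
    · exact ⟨by linarith, by linarith, G_not⟩

end Pool.Agent.Results.MP_0af329_co.DiscSets
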