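import Mathlib
import Pool.Agent.Helper585.Acute.Final6

/-!
Discontinuities of the limiting distribution functions of angles in planar point sets.

F is left continuous and G is right continuous everywhere (blow-up of a good finite configuration).
F jumps at pi/2, 3 pi/5 and 2 pi/3: to the left of these points four, five or six points in general
position always have a large angle, so the triangles without a large angle form a 3-graph without
complete subgraph on 4, 5, 6 vertices, and its density is bounded (certificates on five points, de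
Caen's inequality); to the right of them cluster constructions have fewer large angles. The one-sided
limits at a right angle are F(pi/2+) = 1/12 and G(pi/2-) = 5/12 (Goodman's bound in all rotated
frames). G jumps at pi/3 and pi/2.
-/

set_option autoImplicit false

namespace Pool.Agent.Results.MP_0af329_co.Jumps

open Filter Topology Pool.Agent.Helper585.Acute

theorem result :
    (∀ α : ℝ, Tendsto (ratio fun a => α < a) atTop (𝓝 (F α)) ∧
      Tendsto (ratio fun a => a < α) atTop (𝓝 (G α))) ∧
    (∀ α : ℝ, ContinuousWithinAt F (Set.Iic α) α ∧ ContinuousWithinAt G (Set.Ici α) α) ∧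
    (1423 / 10000 ≤ F (Real.pi / 2) ∧ Tendsto F (𝓝[>] (Real.pi / 2)) (𝓝 (1 / 12)) ∧
      ¬ ContinuousAt F (Real.pi / 2)) ∧
    (203 / 3000 ≤ F (3 * Real.pi / 5) ∧ (∀ α : ℝ, 3 * Real.pi / 5 < α → F α ≤ 23 / 375) ∧
      ¬ ContinuousAt F (3 * Real.pi / 5)) ∧
    (1 / 30 ≤ F (2 * Real.pi / 3) ∧ (∀ α : ℝ, 2 * Real.pi / 3 < α → F α ≤ 1 / 48) ∧
      ¬ ContinuousAt F (2 * Real.pi / 3)) ∧
    (G (Real.pi / 2) = 2 / 3 ∧ Tendsto G (𝓝[<] (Real.pi / 2)) (𝓝 (5 / 12)) ∧
      ¬ ContinuousAt G (Real.pi / 2)) ∧
    (1 / 3 ≤ G (Real.pi / 3) ∧ (∀ α : ℝ, α < Real.pi / 3 → G α ≤ 8 / 27) ∧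
      ¬ ContinuousAt G (Real.pi / 3)) := by
  refine ⟨fun α => ⟨F_tendsto α, G_tendsto α⟩, fun α => ⟨F_left α, G_right α⟩,
    ⟨F_half, F_right, F_not⟩, ⟨J.F_half5, J.F_le5, J.F_not5⟩, ⟨J.F_half6, J.F_le6, J.F_not6⟩,
    ⟨G_half, G_left, G_not⟩, G_third, ?_, G_not_third⟩
  intro α hα
  have h := G_le 3 (by norm_num) α (by push_cast; linarith)
  norm_num at h
  linarith

end Pool.Agent.Results.MP_0af329_co.Jumps
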